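import Mathlib

set_option autoImplicit false

open Cardinal Order Set Filter

namespace Pool.Agent.Helper695.BScale

/-- domination modulo finite sets -/
def Dom (f g : ℕ → ℕ) : Prop := ∀ᶠ n in atTop, f n ≤ g n

theorem Dom.trans {f g h : ℕ → ℕ} (h1 : Dom f g) (h2 : Dom g h) : Dom f h := by
  filter_upwards [h1, h2] with n a b using a.trans b

/-- boundedness of a family -/
def Bdd (F : Set (ℕ → ℕ)) : Prop := ∃ g, ∀ f ∈ F, Dom f g

theorem bdd_of_countable {F : Set (ℕ → ℕ)} (hF : F.Countable) : Bdd F := by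
  rcases F.eq_empty_or_nonempty with rfl | hne
  · exact ⟨0, fun f hf => absurd hf (by simp)⟩
  · obtain ⟨e, rfl⟩ := hF.exists_eq_range hne
    refine ⟨fun k => (Finset.range (k + 1)).sup fun n => e n k, ?_⟩
    rintro _ ⟨n, rfl⟩
    filter_upwards [eventually_ge_atTop n] with k hk
    exact Finset.le_sup (f := fun n => e n k) (Finset.mem_range.mpr (by omega))

/-- the bounding number -/
noncomputable def bn : Cardinal.{0} := sInf {c | ∃ F : Set (ℕ → ℕ), #F = c ∧ ¬ Bdd F}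

theorem bn_mem : ∃ F : Set (ℕ → ℕ), #F = bn ∧ ¬ Bdd F := by
  have : {c | ∃ F : Set (ℕ → ℕ), #F = c ∧ ¬ Bdd F}.Nonempty := by
    refine ⟨_, univ, rfl, ?_⟩
    rintro ⟨g, hg⟩
    obtain ⟨n, hn⟩ := (hg (fun n => g n + 1) (mem_univ _)).exists
    simp only at hn
    omega
  exact csInf_mem this

theorem bdd_of_lt {F : Set (ℕ → ℕ)} (hF : #F < bn) : Bdd F := by
  by_contra h
  have h1 : bn ≤ #F := csInf_le' (show #F ∈ {c | ∃ F : Set (ℕ → ℕ), #F = c ∧ ¬ Bdd F} from ⟨F, rfl, h⟩)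
  exact absurd h1 (not_le.mpr hF)

theorem aleph0_lt_bn : ℵ₀ < bn := by
  by_contra h
  push Not at h
  obtain ⟨F, hF, hF2⟩ := bn_mem
  rw [← hF] at h
  exact hF2 (bdd_of_countable (le_aleph0_iff_set_countable.mp h))

/-- the index set -/
abbrev B : Type := bn.ord.ToType

theorem mk_B : #B = bn := by simp [B]

theorem mk_Iic_B (x : B) : #(Iic x) < bn := by
  have := mk_Iic_lt x (by simp [B]) (by rw [mk_B]; exact aleph0_lt_bn.le)
  rwa [mk_B] at this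

theorem mk_Iio_B (x : B) : #(Iio x) < bn :=
  (mk_le_mk_of_subset Iio_subset_Iic_self).trans_lt (mk_Iic_B x)

theorem exists_mono_bound {F : Set (ℕ → ℕ)} (hF : Bdd F) :
    ∃ g : ℕ → ℕ, Monotone g ∧ ∀ f ∈ F, Dom f g := by
  obtain ⟨g, hg⟩ := hF
  refine ⟨fun k => (Finset.range (k + 1)).sup g, ?_, ?_⟩
  · intro k l hkl
    exact Finset.sup_mono (Finset.range_mono (by omega))
  · intro f hf
    filter_upwards [hg f hf] with k hk
    exact hk.trans (Finset.le_sup (f := g) (Finset.mem_range.mpr (by omega)))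

/-- the increasing unbounded sequence -/
theorem exists_bseq : ∃ f : B → ℕ → ℕ, (∀ α, Monotone (f α)) ∧ (∀ α β, α < β → Dom (f α) (f β)) ∧
    ¬ Bdd (range f) := by
  obtain ⟨F, hF, hF2⟩ := bn_mem
  have hcard : #B = #F := by rw [mk_B, hF]
  obtain ⟨e⟩ := Cardinal.eq.mp hcard
  have step : ∀ (α : B) (prev : ∀ β : B, β < α → ℕ → ℕ), ∃ g : ℕ → ℕ, Monotone g ∧
      (∀ β (hβ : β < α), Dom (prev β hβ) g) ∧ Dom (e α).1 g := by
    intro α prev
    obtain ⟨g, hg1, hg2⟩ := exists_mono_bound (bdd_of_lt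
      (F := (range fun β : Iio α => prev β.1 β.2) ∪ {(e α).1}) (by
        refine (mk_union_le _ _).trans_lt (add_lt_of_lt aleph0_lt_bn.le
          (mk_range_le.trans_lt (mk_Iio_B α)) ?_)
        rw [mk_singleton]
        exact one_lt_aleph0.trans aleph0_lt_bn))
    exact ⟨g, hg1, fun β hβ => hg2 _ (Or.inl ⟨⟨β, hβ⟩, rfl⟩), hg2 _ (Or.inr rfl)⟩
  choose Φ h1 h2 h3 using step
  let f : B → ℕ → ℕ := (wellFounded_lt : WellFounded ((· < ·) : B → B → Prop)).fix Φ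
  have hf : ∀ α, f α = Φ α (fun β _ => f β) := fun α => WellFounded.fix_eq _ _ _
  refine ⟨f, fun α => ?_, fun α β hαβ => ?_, ?_⟩
  · rw [hf α]; exact h1 _ _
  · have := h2 β (fun β _ => f β) α hαβ
    rwa [← hf β] at this
  · rintro ⟨g, hg⟩
    refine hF2 ⟨g, fun x hx => ?_⟩
    have h4 := h3 (e.symm ⟨x, hx⟩) (fun β _ => f β)
    rw [← hf, e.apply_symm_apply] at h4
    exact h4.trans (hg _ ⟨_, rfl⟩)

/-- the sequence -/
noncomputable def f : B → ℕ → ℕ := exists_bseq.choose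

theorem f_mono (α : B) : Monotone (f α) := exists_bseq.choose_spec.1 α

theorem f_lt {α β : B} (h : α < β) : Dom (f α) (f β) := exists_bseq.choose_spec.2.1 α β h

theorem f_le {α β : B} (h : α ≤ β) : Dom (f α) (f β) := by
  rcases h.lt_or_eq with h | rfl
  · exact f_lt h
  · exact Eventually.of_forall fun _ => le_rfl

theorem f_unbdd : ¬ Bdd (range f) := exists_bseq.choose_spec.2.2

theorem bounded_B {A : Set B} (hA : #A < bn) : ∃ β, ∀ a ∈ A, a < β := by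
  by_contra hcon
  push Not at hcon
  obtain ⟨g, hg⟩ := bdd_of_lt (F := f '' A) (mk_image_le.trans_lt hA)
  refine f_unbdd ⟨g, ?_⟩
  rintro _ ⟨β, rfl⟩
  obtain ⟨a, ha, hβa⟩ := hcon β
  exact (f_le hβa).trans (hg _ ⟨a, ha, rfl⟩)

theorem bounded_countable {A : Set B} (hA : A.Countable) : ∃ β, ∀ a ∈ A, a < β :=
  bounded_B ((le_aleph0_iff_set_countable.mpr hA).trans_lt aleph0_lt_bn)

/-- unboundedness on infinite sets -/
theorem unbdd_on (A : Set ℕ) (hA : A.Infinite) (g : ℕ → ℕ) :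
    ∃ α, ∃ᶠ k in atTop, k ∈ A ∧ g k < f α k := by
  by_contra hcon
  push Not at hcon
  have hnext : ∀ k, ∃ m ∈ A, k ≤ m := fun k => by
    obtain ⟨m, hm, hkm⟩ := hA.exists_gt k
    exact ⟨m, hm, hkm.le⟩
  choose nx h1 h2 using hnext
  refine f_unbdd ⟨fun k => g (nx k), ?_⟩
  rintro _ ⟨α, rfl⟩
  have h3 := hcon α
  rw [eventually_atTop] at h3
  obtain ⟨N, hN⟩ := h3
  filter_upwards [eventually_ge_atTop N] with k hk
  exact (f_mono α (h2 k)).trans (hN (nx k) (hk.trans (h2 k)) (h1 k))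

/-- The levels of infinite transversals. -/
def Lev (α : B) (s : Set (ℕ × ℕ)) : Prop :=
  s.Infinite ∧ (∀ k, {p ∈ s | p.1 = k}.Finite) ∧ (∀ p ∈ s, p.2 < f α p.1) ∧
    ∀ β < α, {p ∈ s | p.2 < f β p.1}.Finite

theorem Lev.disj {α β : B} {s t : Set (ℕ × ℕ)} (hs : Lev α s) (ht : Lev β t) (h : α ≠ β) :
    (s ∩ t).Finite := by
  rcases lt_or_gt_of_ne h with h | h
  · refine (ht.2.2.2 α h).subset ?_
    rintro p ⟨hp1, hp2⟩
    exact ⟨hp2, hs.2.2.1 p hp1⟩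
  · refine (hs.2.2.2 β h).subset ?_
    rintro p ⟨hp1, hp2⟩
    exact ⟨hp1, ht.2.2.1 p hp2⟩

/-- sets with infinitely many infinite columns -/
def Big (E : Set (ℕ × ℕ)) : Prop := {k : ℕ | {j : ℕ | (k, j) ∈ E}.Infinite}.Infinite

/-- `α` is the limit of a strictly increasing sequence -/
def IsLimSeq (x : ℕ → B) (α : B) : Prop :=
  StrictMono x ∧ (∀ n, x n < α) ∧ ∀ γ < α, ∃ n, γ < x n

theorem tall_aux {E : Set (ℕ × ℕ)} (hE : Big E) : ∃ h : B → B, ∀ (α : B) (x : ℕ → B),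
    IsLimSeq x α → (∀ n, h (x n) < x (n + 1)) → ∃ s ⊆ E, Lev α s := by
  have he : ∀ (β : B) (k : ℕ), ∃ j, {j : ℕ | (k, j) ∈ E}.Infinite → (k, j) ∈ E ∧ f β k ≤ j := by
    intro β k
    by_cases hk : {j : ℕ | (k, j) ∈ E}.Infinite
    · obtain ⟨j, hj, hj2⟩ := hk.exists_gt (f β k)
      exact ⟨j, fun _ => ⟨hj, hj2.le⟩⟩
    · exact ⟨0, fun h => absurd h hk⟩
  choose e he using he
  have hh := fun β => unbdd_on _ hE (e β)
  choose h hh using hh
  refine ⟨h, ?_⟩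
  rintro α x ⟨hx1, hx2, hx3⟩ hx4
  have hfr : ∀ n, ∃ᶠ k in atTop, {j : ℕ | (k, j) ∈ E}.Infinite ∧ e (x n) k < f α k ∧
      ∀ i ≤ n, f (x i) k ≤ f (x n) k := by
    intro n
    have h1 : ∀ᶠ k in atTop, ∀ i ∈ Finset.range (n + 1), f (x i) k ≤ f (x n) k := by
      rw [Filter.eventually_all_finset]
      intro i hi
      exact f_le (hx1.monotone (by simpa [Nat.lt_succ_iff] using hi))
    have h2 : ∀ᶠ k in atTop, f (h (x n)) k ≤ f α k := f_lt ((hx4 n).trans (hx2 _))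
    refine ((hh (x n)).and_eventually (h1.and h2)).mono ?_
    rintro k ⟨⟨h3, h4⟩, h5, h6⟩
    exact ⟨h3, h4.trans_le h6, fun i hi => h5 i (Finset.mem_range.mpr (by omega))⟩
  obtain ⟨φ, hφ, hP⟩ := Filter.extraction_forall_of_frequently hfr
  have hinj : Function.Injective fun n => (φ n, e (x n) (φ n)) := fun n m hnm =>
    hφ.injective (Prod.ext_iff.mp hnm).1
  refine ⟨range fun n => (φ n, e (x n) (φ n)), ?_, infinite_range_of_injective hinj, ?_, ?_, ?_⟩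
  · rintro _ ⟨n, rfl⟩
    exact (he (x n) (φ n) (hP n).1).1
  · intro k
    refine ((finite_Iic k).image fun n => (φ n, e (x n) (φ n))).subset ?_
    rintro _ ⟨⟨n, rfl⟩, hn⟩
    exact ⟨n, (hφ.id_le n).trans (le_of_eq hn), rfl⟩
  · rintro _ ⟨n, rfl⟩
    exact (hP n).2.1
  · intro β hβ
    obtain ⟨n, hn⟩ := hx3 β hβ
    have h1 : Dom (f β) (f (x n)) := f_lt hn
    rw [Dom, eventually_atTop] at h1
    obtain ⟨N, hN⟩ := h1
    refine ((finite_Iic (max n N)).image fun n => (φ n, e (x n) (φ n))).subset ?_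
    rintro _ ⟨⟨m, rfl⟩, hm⟩
    refine ⟨m, ?_, rfl⟩
    by_contra hcon
    simp only [mem_Iic, not_le, max_lt_iff] at hcon
    have h2 := hN (φ m) (hcon.2.le.trans (hφ.id_le m))
    have h3 := (hP m).2.2 n hcon.1.le
    have h4 := (he (x m) (φ m) (hP m).1).2
    simp only at hm
    omega


/-- points of countable cofinality closed under `h` -/
def CC (h : B → B) : Set B := {α | (∃ x, IsLimSeq x α) ∧ ∀ β < α, h β < α}

theorem CC_unbounded (h : B → B) (γ₀ : B) : ∃ α ∈ CC h, γ₀ < α := by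
  have hH : ∀ β, ∃ δ, β < δ ∧ γ₀ < δ ∧ ∀ γ ≤ β, h γ < δ := by
    intro β
    obtain ⟨δ, hδ⟩ := bounded_B (A := h '' (Iic β) ∪ {β, γ₀}) (by
      refine (mk_union_le _ _).trans_lt (add_lt_of_lt aleph0_lt_bn.le
          (mk_image_le.trans_lt (mk_Iic_B β)) ?_)
      exact (Set.Finite.lt_aleph0 (by simp)).trans aleph0_lt_bn)
    exact ⟨δ, hδ _ (Or.inr (by simp)), hδ _ (Or.inr (by simp)),
      fun γ hγ => hδ _ (Or.inl ⟨γ, hγ, rfl⟩)⟩
  choose H hH1 hH2 hH3 using hH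
  let x : ℕ → B := fun n => H^[n] (H γ₀)
  have hx : ∀ n, x (n + 1) = H (x n) := fun n => Function.iterate_succ_apply' H n _
  have hxm : StrictMono x := strictMono_nat_of_lt_succ fun n => by rw [hx]; exact hH1 _
  obtain ⟨δ, hδ⟩ := bounded_countable (countable_range x)
  obtain ⟨α, hα, hα2⟩ := (wellFounded_lt : WellFounded ((· < ·) : B → B → Prop)).has_min
    {α | ∀ n, x n < α} ⟨δ, fun n => hδ _ ⟨n, rfl⟩⟩
  have hcof : ∀ γ < α, ∃ n, γ < x n := by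
    intro γ hγ
    have h1 : ¬ ∀ n, x n < γ := fun h1 => hα2 γ h1 hγ
    push Not at h1
    obtain ⟨n, hn⟩ := h1
    exact ⟨n + 1, hn.trans_lt (hxm (Nat.lt_succ_self n))⟩
  refine ⟨α, ⟨⟨x, hxm, hα, hcof⟩, ?_⟩, ?_⟩
  · intro β hβ
    obtain ⟨n, hn⟩ := hcof β hβ
    have h1 := hH3 (x n) β hn.le
    rw [← hx] at h1
    exact h1.trans (hα _)
  · have : x 0 = H γ₀ := rfl
    exact (hH2 γ₀).trans (hα 0)

/-- The splitting lemma: a set that meets and comeets every `CC h`. -/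
theorem exists_split : ∃ S : Set B, ∀ h : B → B, (∃ α ∈ CC h, α ∈ S) ∧ ∃ α ∈ CC h, α ∉ S := by
  by_contra hcon
  push Not at hcon
  have hcon' : ∀ S : Set B, ∃ h : B → B, (∀ α ∈ CC h, α ∉ S) ∨ ∀ α ∈ CC h, α ∈ S := by
    intro S
    obtain ⟨h, hh⟩ := hcon S
    refine ⟨h, ?_⟩
    by_cases h1 : ∃ α ∈ CC h, α ∈ S
    · exact Or.inr (hh h1)
    · push Not at h1; exact Or.inl h1
  -- fixed sequences
  have ha : ∀ α : B, ∃ x : ℕ → B, (∃ x, IsLimSeq x α) → IsLimSeq x α := by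
    intro α
    by_cases h : ∃ x, IsLimSeq x α
    · obtain ⟨x, hx⟩ := h; exact ⟨x, fun _ => hx⟩
    · exact ⟨fun _ => α, fun h' => absurd h' h⟩
  choose a ha using ha
  choose h hh using fun (n : ℕ) (γ : B) => hcon' {α | a α n < γ}
  have hstep : ∀ n, ∃ γ, ∀ α ∈ CC (h n γ), a α n < γ := by
    intro n
    by_contra hc
    push Not at hc
    have hall : ∀ γ, ∀ α ∈ CC (h n γ), ¬ a α n < γ := by
      intro γ
      rcases hh n γ with h1 | h1
      · exact h1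
      · obtain ⟨α, hα, hα2⟩ := hc γ
        exact absurd (h1 α hα) (not_lt.mpr hα2)
    have hH : ∀ δ, ∃ ε, ∀ γ ≤ δ, ∀ β ≤ δ, h n γ β < ε := by
      intro δ
      obtain ⟨ε, hε⟩ := bounded_B (A := range fun p : Iic δ × Iic δ => h n p.1 p.2) (by
        refine mk_range_le.trans_lt ?_
        rw [mk_prod, lift_id]
        exact mul_lt_of_lt aleph0_lt_bn.le (mk_Iic_B δ) (mk_Iic_B δ))
      exact ⟨ε, fun γ hγ β hβ => hε _ ⟨(⟨γ, hγ⟩, ⟨β, hβ⟩), rfl⟩⟩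
    choose H hH using hH
    obtain ⟨δ₀, -⟩ := bounded_countable (A := ∅) (by simp)
    obtain ⟨α, hα, -⟩ := CC_unbounded H δ₀
    have hlim := ha α hα.1
    have hmem : ∀ γ < α, α ∈ CC (h n γ) := by
      intro γ hγ
      refine ⟨hα.1, fun β hβ => ?_⟩
      exact (hH (max γ β) γ (le_max_left _ _) β (le_max_right _ _)).trans
        (hα.2 _ (max_lt hγ hβ))
    have h1 := hall (a α (n + 1)) α (hmem _ (hlim.2.1 (n + 1)))
    exact h1 (hlim.1 (Nat.lt_succ_self n))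
  choose γ hγ using hstep
  obtain ⟨Γ, hΓ⟩ := bounded_countable (countable_range γ)
  have hH : ∀ β, ∃ ε, ∀ n, h n (γ n) β < ε := by
    intro β
    obtain ⟨ε, hε⟩ := bounded_countable (countable_range fun n => h n (γ n) β)
    exact ⟨ε, fun n => hε _ ⟨n, rfl⟩⟩
  choose H hH using hH
  obtain ⟨α, hα, hα2⟩ := CC_unbounded H Γ
  have hlim := ha α hα.1
  have hmem : ∀ n, a α n < γ n := by
    intro n
    apply hγ n α
    refine ⟨hα.1, fun β hβ => (hH β n).trans (hα.2 β hβ)⟩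
  obtain ⟨n, hn⟩ := hlim.2.2 Γ hα2
  exact lt_irrefl _ (hn.trans ((hmem n).trans (hΓ _ ⟨n, rfl⟩)))

theorem tall {E : Set (ℕ × ℕ)} (hE : Big E) : ∃ h : B → B, ∀ α ∈ CC h, ∃ s ⊆ E, Lev α s := by
  obtain ⟨h, hh⟩ := tall_aux hE
  refine ⟨h, ?_⟩
  rintro α ⟨⟨x, hx1, hx2, hx3⟩, hα⟩
  -- choose a subsequence
  have hs : ∀ n, ∃ m, n < m ∧ h (x n) < x m := by
    intro n
    obtain ⟨m, hm⟩ := hx3 (max (h (x n)) (x n)) (max_lt (hα _ (hx2 n)) (hx2 n))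
    exact ⟨m, hx1.lt_iff_lt.mp ((le_max_right _ _).trans_lt hm), (le_max_left _ _).trans_lt hm⟩
  choose r hr1 hr2 using hs
  let φ : ℕ → ℕ := fun n => r^[n] 0
  have hφs : ∀ n, φ (n + 1) = r (φ n) := fun n => Function.iterate_succ_apply' r n _
  have hφ : StrictMono φ := strictMono_nat_of_lt_succ fun n => by rw [hφs]; exact hr1 _
  refine hh α (fun n => x (φ n)) ⟨hx1.comp hφ, fun n => hx2 _, fun γ hγ => ?_⟩ fun n => ?_
  · obtain ⟨n, hn⟩ := hx3 γ hγ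
    exact ⟨n, hn.trans_le (hx1.monotone (hφ.id_le n))⟩
  · show h (x (φ n)) < x (φ (n + 1))
    rw [hφs]; exact hr2 _

/-- **The two families.** -/
theorem exists_families : ∃ S P : Set (Set (ℕ × ℕ)),
    (∀ s ∈ S, s.Infinite ∧ ∀ k, {p ∈ s | p.1 = k}.Finite) ∧
    (∀ s ∈ P, s.Infinite ∧ ∀ k, {p ∈ s | p.1 = k}.Finite) ∧
    (∀ s ∈ S, ∀ t ∈ P, (s ∩ t).Finite) ∧
    (∀ E, Big E → (∃ s ∈ S, s ⊆ E) ∧ ∃ t ∈ P, t ⊆ E) := by
  obtain ⟨A, hA⟩ := exists_split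
  refine ⟨{s | ∃ α ∈ A, Lev α s}, {s | ∃ α, α ∉ A ∧ Lev α s}, ?_, ?_, ?_, ?_⟩
  · rintro s ⟨α, -, hs⟩; exact ⟨hs.1, hs.2.1⟩
  · rintro s ⟨α, -, hs⟩; exact ⟨hs.1, hs.2.1⟩
  · rintro s ⟨α, hα, hs⟩ t ⟨β, hβ, ht⟩
    exact hs.disj ht (fun h => hβ (h ▸ hα))
  · intro E hE
    obtain ⟨h, hh⟩ := tall hE
    obtain ⟨⟨α, hα1, hα2⟩, ⟨β, hβ1, hβ2⟩⟩ := hA h
    obtain ⟨s, hs1, hs2⟩ := hh α hα1
    obtain ⟨t, ht1, ht2⟩ := hh β hβ1
    exact ⟨⟨s, ⟨α, hα2, hs2⟩, hs1⟩, ⟨t, ⟨β, hβ2, ht2⟩, ht1⟩⟩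

end Pool.Agent.Helper695.BScale
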