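import Mathlib

set_option autoImplicit false

open Cardinal Order Set Filter Topology

namespace Pool.Agent.Helper695.CompactHD

/-- A free sequence of length `τ⁺` in a compact Hausdorff space whose tightness exceeds `τ`. -/
theorem exists_free {K : Type} [TopologicalSpace K] [CompactSpace K] [T2Space K]
    (τ : Cardinal.{0}) (hτ : ℵ₀ ≤ τ) (A : Set K) (p : K) (hp : p ∈ closure A)
    (hA : ∀ B ⊆ A, #B ≤ τ → p ∉ closure B) :
    ∃ x : (succ τ).ord.ToType → K, ∀ β, Disjoint (closure (x '' Iio β)) (closure (x '' Ici β)) := by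
  classical
  -- the `τ`-closure of `A`
  let A' : Set K := {y | ∃ B ⊆ A, #B ≤ τ ∧ y ∈ closure B}
  have hA'1 : ∀ B ⊆ A', #B ≤ τ → closure B ⊆ A' := by
    intro B hB hcard y hy
    have hB' : ∀ b ∈ B, ∃ W : Set K, W ⊆ A ∧ #W ≤ τ ∧ b ∈ closure W := fun b hb => hB hb
    choose! W hW using hB'
    refine ⟨⋃ b ∈ B, W b, iUnion₂_subset fun b hb => (hW b hb).1, ?_, ?_⟩
    · refine (mk_biUnion_le _ _).trans ?_
      calc #B * ⨆ b : B, #(W b.1) ≤ τ * τ :=
            mul_le_mul' hcard (ciSup_le' fun b => (hW b.1 b.2).2.1)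
        _ = τ := mul_eq_self hτ
    · have h1 : B ⊆ closure (⋃ b ∈ B, W b) := fun b hb =>
        closure_mono (subset_biUnion_of_mem (u := fun b => W b) hb) (hW b hb).2.2
      exact closure_minimal h1 isClosed_closure hy
  have hpA' : p ∉ A' := by
    rintro ⟨B, hB1, hB2, hB3⟩
    exact hA B hB1 hB2 hB3
  -- closed neighbourhoods
  have hV : ∀ S : Set K, ∃ V : Set K, IsClosed V ∧ V ∈ 𝓝 p ∧
      (p ∉ closure S → Disjoint (closure S) V) := by
    intro S
    by_cases hS : p ∈ closure S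
    · exact ⟨univ, isClosed_univ, univ_mem, fun h => absurd hS h⟩
    · have h1 : (closure S)ᶜ ∈ 𝓝 p := isClosed_closure.isOpen_compl.mem_nhds hS
      obtain ⟨V, hV1, hV2, hV3⟩ := exists_mem_nhds_isClosed_subset h1
      exact ⟨V, hV2, hV1, fun _ => disjoint_left.mpr fun y hy hy2 => hV3 hy2 hy⟩
  choose V hV1 hV2 hV3 using hV
  -- points in small intersections
  have hP : ∀ (ι : Type) (_ : #ι ≤ τ) (U : ι → Set K), (∀ i, IsClosed (U i)) → (∀ i, U i ∈ 𝓝 p) →
      ∃ y ∈ A', ∀ i, y ∈ U i := by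
    intro ι hι U hU1 hU2
    have h1 : ∀ s : Finset ι, ∃ a ∈ A, ∀ i ∈ s, a ∈ U i := by
      intro s
      have h2 : (⋂ i ∈ s, U i) ∈ 𝓝 p := (Finset.iInter_mem_sets s).mpr fun i _ => hU2 i
      obtain ⟨a, ha1, ha2⟩ := mem_closure_iff_nhds.mp hp _ h2
      refine ⟨a, ha2, fun i hi => ?_⟩
      simp only [mem_iInter] at ha1
      exact ha1 i hi
    choose a ha1 ha2 using h1
    have hcard : #(range a) ≤ τ := by
      refine mk_range_le.trans ?_
      rcases finite_or_infinite ι with h | h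
      · exact (lt_aleph0_of_finite _).le.trans hτ
      · rw [mk_finset_of_infinite]; exact hι
    have hsub : range a ⊆ A' := by
      rintro _ ⟨s, rfl⟩
      exact ⟨{a s}, by simpa using ha1 s, by
        rw [mk_singleton]; exact one_lt_aleph0.le.trans hτ, subset_closure rfl⟩
    have hcl := hA'1 _ hsub hcard
    obtain ⟨y, hy1, hy2⟩ := IsCompact.inter_iInter_nonempty
      (isClosed_closure.isCompact : IsCompact (closure (range a))) U hU1 (fun s =>
        ⟨a s, subset_closure (mem_range_self s), by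
          simp only [mem_iInter]; exact ha2 s⟩)
    simp only [mem_iInter] at hy2
    exact ⟨y, hcl hy1, hy2⟩
  -- cardinalities
  have hIic : ∀ α : (succ τ).ord.ToType, #(Iic α) ≤ τ := by
    intro α
    have := mk_Iic_lt α (by simp) (by simpa using hτ.trans (le_succ τ))
    simp only [mk_toType, card_ord] at this
    exact lt_succ_iff.mp this
  have step : ∀ (α : (succ τ).ord.ToType) (prev : ∀ β : (succ τ).ord.ToType, β < α → K),
      ∃ y ∈ A', ∀ β ≤ α, y ∈ V {z | ∃ (γ : (succ τ).ord.ToType) (h : γ < α), γ < β ∧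
        z = prev γ h} := by
    intro α prev
    obtain ⟨y, hy1, hy2⟩ := hP (Iic α) (hIic α) (fun β => V {z | ∃ (γ : (succ τ).ord.ToType)
      (h : γ < α), γ < β.1 ∧ z = prev γ h}) (fun _ => hV1 _) (fun _ => hV2 _)
    exact ⟨y, hy1, fun β hβ => hy2 ⟨β, hβ⟩⟩
  choose Φ hΦ1 hΦ2 using step
  let x : (succ τ).ord.ToType → K :=
    (wellFounded_lt : WellFounded ((· < ·) : (succ τ).ord.ToType → (succ τ).ord.ToType → Prop)).fix Φ
  have hx : ∀ α, x α = Φ α (fun β _ => x β) := fun α => WellFounded.fix_eq _ _ _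
  have hx1 : ∀ α, x α ∈ A' := fun α => by rw [hx α]; exact hΦ1 _ _
  have hx2 : ∀ α β, β ≤ α → x α ∈ V (x '' Iio β) := by
    intro α β hβ
    have h1 := hΦ2 α (fun β _ => x β) β hβ
    rw [← hx α] at h1
    have h2 : {z | ∃ (γ : (succ τ).ord.ToType) (_ : γ < α), γ < β ∧ z = x γ} = x '' Iio β := by
      ext z
      constructor
      · rintro ⟨γ, _, h3, rfl⟩
        exact ⟨γ, h3, rfl⟩
      · rintro ⟨γ, h3, rfl⟩
        exact ⟨γ, lt_of_lt_of_le h3 hβ, h3, rfl⟩
    rw [h2] at h1
    exact h1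
  refine ⟨x, fun β => ?_⟩
  have h1 : closure (x '' Iio β) ⊆ A' := by
    apply hA'1
    · rintro _ ⟨γ, _, rfl⟩; exact hx1 γ
    · exact mk_image_le.trans ((mk_le_mk_of_subset Iio_subset_Iic_self).trans (hIic β))
  have h2 : closure (x '' Ici β) ⊆ V (x '' Iio β) := by
    apply closure_minimal _ (hV1 _)
    rintro _ ⟨γ, hγ, rfl⟩
    exact hx2 γ β hγ
  exact (hV3 _ (fun h => hpA' (h1 h))).mono_right h2

/-- Consequences of freeness: every member of the sequence is isolated in the closure. -/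
theorem free_isolated {K : Type} [TopologicalSpace K] {τ : Cardinal.{0}} (hτ : ℵ₀ ≤ τ)
    {x : (succ τ).ord.ToType → K}
    (hx : ∀ β, Disjoint (closure (x '' Iio β)) (closure (x '' Ici β)))
    (α : (succ τ).ord.ToType) :
    ∃ O : Set K, IsOpen O ∧ x α ∈ O ∧ O ∩ closure (range x) ⊆ closure {x α} ∧
      ∀ β, x β ∈ O → β = α := by
  have : NoMaxOrder (succ τ).ord.ToType := Cardinal.noMaxOrder (hτ.trans (le_succ τ))
  have hIoi : Ioi α = Ici (succ α) := by
    ext β; simp
  have hIic : Iic α = Iio (succ α) := by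
    ext β; simp
  refine ⟨(closure (x '' Iio α) ∪ closure (x '' Ioi α))ᶜ,
    (isClosed_closure.union isClosed_closure).isOpen_compl, ?_, ?_, ?_⟩
  · rintro (h | h)
    · exact disjoint_left.mp (hx α) h (subset_closure ⟨α, self_mem_Ici, rfl⟩)
    · rw [hIoi] at h
      exact disjoint_left.mp (hx (succ α)) (subset_closure ⟨α, by rw [← hIic]; exact self_mem_Iic, rfl⟩) h
  · rintro y ⟨hy1, hy2⟩
    have h1 : range x = x '' Iio α ∪ {x α} ∪ x '' Ioi α := by
      rw [← image_univ, ← image_singleton (f := x), ← image_union, ← image_union]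
      congr 1
      ext β
      simp only [mem_univ, mem_union, mem_Iio, mem_singleton_iff, mem_Ioi, true_iff]
      rcases lt_trichotomy β α with h | h | h
      · exact Or.inl (Or.inl h)
      · exact Or.inl (Or.inr h)
      · exact Or.inr h
    rw [h1, closure_union, closure_union] at hy2
    rcases hy2 with (h | h) | h
    · exact absurd (Or.inl h) hy1
    · exact h
    · exact absurd (Or.inr h) hy1
  · intro β hβ
    rcases lt_trichotomy β α with h | h | h
    · exact absurd (Or.inl (subset_closure (mem_image_of_mem x (show β ∈ Iio α from h)))) hβ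
    · exact h
    · exact absurd (Or.inr (subset_closure (mem_image_of_mem x (show β ∈ Ioi α from h)))) hβ


theorem free_injective {K : Type} [TopologicalSpace K] {τ : Cardinal.{0}} (hτ : ℵ₀ ≤ τ)
    {x : (succ τ).ord.ToType → K}
    (hx : ∀ β, Disjoint (closure (x '' Iio β)) (closure (x '' Ici β))) :
    Function.Injective x := by
  intro α β h
  obtain ⟨O, _, h1, _, h2⟩ := free_isolated hτ hx β
  exact h2 α (by rw [h]; exact h1)

/-- A space all of whose closed subspaces have density at most `τ` has no free sequence of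
length `τ⁺`. -/
theorem no_free {K : Type} [TopologicalSpace K] [T1Space K] (τ : Cardinal.{0}) (hτ : ℵ₀ ≤ τ)
    (hK : ∀ Y : Set K, IsClosed Y → ∃ D : Set K, D ⊆ Y ∧ #D ≤ τ ∧ Y ⊆ closure D)
    (x : (succ τ).ord.ToType → K)
    (hx : ∀ β, Disjoint (closure (x '' Iio β)) (closure (x '' Ici β))) : False := by
  obtain ⟨D, hD1, hD2, hD3⟩ := hK _ (isClosed_closure : IsClosed (closure (range x)))
  have h1 : range x ⊆ D := by
    rintro _ ⟨α, rfl⟩
    obtain ⟨O, hO, h1, h2, _⟩ := free_isolated hτ hx α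
    have h3 : x α ∈ closure D := hD3 (subset_closure (mem_range_self α))
    obtain ⟨y, hy1, hy2⟩ := mem_closure_iff.mp h3 O hO h1
    have h4 := h2 ⟨hy1, hD1 hy2⟩
    rw [closure_singleton, mem_singleton_iff] at h4
    rw [← h4]; exact hy2
  have h2 : succ τ ≤ #D := by
    calc succ τ = #((succ τ).ord.ToType) := by simp
      _ = #(range x) := (mk_range_eq x (free_injective hτ hx)).symm
      _ ≤ #D := mk_le_mk_of_subset h1
  exact absurd (h2.trans hD2) (not_le.mpr (lt_succ τ))

/-- In a compact Hausdorff space all of whose closed subspaces have density at most `τ`, every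
subspace has density at most `τ`. -/
theorem compact_hd {K : Type} [TopologicalSpace K] [CompactSpace K] [T2Space K]
    (τ : Cardinal.{0}) (hτ : ℵ₀ ≤ τ)
    (hK : ∀ Y : Set K, IsClosed Y → ∃ D : Set K, D ⊆ Y ∧ #D ≤ τ ∧ Y ⊆ closure D)
    (Z : Set K) : ∃ D : Set K, D ⊆ Z ∧ #D ≤ τ ∧ Z ⊆ closure D := by
  obtain ⟨D₀, h1, h2, h3⟩ := hK _ (isClosed_closure : IsClosed (closure Z))
  have h4 : ∀ d ∈ D₀, ∃ B : Set K, B ⊆ Z ∧ #B ≤ τ ∧ d ∈ closure B := by
    intro d hd
    by_contra hcon
    push Not at hcon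
    obtain ⟨x, hx⟩ := exists_free τ hτ Z d (h1 hd) hcon
    exact no_free τ hτ hK x hx
  choose! W hW using h4
  refine ⟨⋃ b ∈ D₀, W b, iUnion₂_subset fun b hb => (hW b hb).1, ?_, ?_⟩
  · refine (mk_biUnion_le _ _).trans ?_
    calc #D₀ * ⨆ b : D₀, #(W b.1) ≤ τ * τ :=
          mul_le_mul' h2 (ciSup_le' fun b => (hW b.1 b.2).2.1)
      _ = τ := mul_eq_self hτ
  · have h5 : D₀ ⊆ closure (⋃ b ∈ D₀, W b) := fun b hb =>
      closure_mono (subset_biUnion_of_mem (u := fun b => W b) hb) (hW b hb).2.2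
    exact (subset_closure.trans h3).trans (closure_minimal h5 isClosed_closure)

end Pool.Agent.Helper695.CompactHD
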