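import Mathlib
import Pool.Agent.Helper695.BScale

set_option autoImplicit false

open Set Filter Topology

namespace Pool.Agent.Helper695.Creede

open Pool.Agent.Helper695.BScale

/-- sequences converging to the top point -/
noncomputable def S : Set (Set (ℕ × ℕ)) := exists_families.choose

/-- the orthogonal family -/
noncomputable def P : Set (Set (ℕ × ℕ)) := exists_families.choose_spec.choose

theorem S_inf {s : Set (ℕ × ℕ)} (hs : s ∈ S) : s.Infinite ∧ ∀ k, {p ∈ s | p.1 = k}.Finite :=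
  exists_families.choose_spec.choose_spec.1 s hs

theorem P_inf {s : Set (ℕ × ℕ)} (hs : s ∈ P) : s.Infinite ∧ ∀ k, {p ∈ s | p.1 = k}.Finite :=
  exists_families.choose_spec.choose_spec.2.1 s hs

theorem orth {s t : Set (ℕ × ℕ)} (hs : s ∈ S) (ht : t ∈ P) : (s ∩ t).Finite :=
  exists_families.choose_spec.choose_spec.2.2.1 s hs t ht

theorem big {E : Set (ℕ × ℕ)} (hE : Big E) : (∃ s ∈ S, s ⊆ E) ∧ ∃ t ∈ P, t ⊆ E :=
  exists_families.choose_spec.choose_spec.2.2.2 E hE

/-- The points of the space. -/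
inductive Y : Type
  | inf : Y
  | col : ℕ → Y
  | pt : ℕ × ℕ → Y

theorem pt_inj : Function.Injective Y.pt := fun _ _ h => Y.pt.inj h
theorem col_inj : Function.Injective Y.col := fun _ _ h => Y.col.inj h

instance : Countable Y := by
  have : Function.Surjective (fun x : Option (ℕ ⊕ ℕ × ℕ) => match x with
    | none => Y.inf
    | some (Sum.inl k) => Y.col k
    | some (Sum.inr p) => Y.pt p) := by
    rintro (_ | k | p)
    · exact ⟨none, rfl⟩
    · exact ⟨some (Sum.inl k), rfl⟩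
    · exact ⟨some (Sum.inr p), rfl⟩
  exact this.countable

/-- The open sets. -/
def IsOp (U : Set Y) : Prop :=
  (∀ k, Y.col k ∈ U → {j | Y.pt (k, j) ∉ U}.Finite) ∧
  (Y.inf ∈ U → {k | Y.col k ∉ U}.Finite ∧ ∀ s ∈ S, {p ∈ s | Y.pt p ∉ U}.Finite)

instance : TopologicalSpace Y where
  IsOpen := IsOp
  isOpen_univ := ⟨fun k _ => by simp, fun _ => ⟨by simp, fun s _ => by simp⟩⟩
  isOpen_inter := by
    rintro U V ⟨hU1, hU2⟩ ⟨hV1, hV2⟩
    refine ⟨fun k hk => ?_, fun h => ⟨?_, fun s hs => ?_⟩⟩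
    · refine ((hU1 k hk.1).union (hV1 k hk.2)).subset fun j hj => ?_
      by_contra hcon
      simp only [mem_union, mem_ofPred_eq, not_or, not_not] at hcon
      exact hj ⟨hcon.1, hcon.2⟩
    · refine ((hU2 h.1).1.union (hV2 h.2).1).subset fun j hj => ?_
      by_contra hcon
      simp only [mem_union, mem_ofPred_eq, not_or, not_not] at hcon
      exact hj ⟨hcon.1, hcon.2⟩
    · refine (((hU2 h.1).2 s hs).union ((hV2 h.2).2 s hs)).subset fun p hp => ?_
      by_contra hcon
      simp only [mem_union, mem_ofPred_eq, not_or, not_and, not_not] at hcon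
      exact hp.2 ⟨hcon.1 hp.1, hcon.2 hp.1⟩
  isOpen_sUnion := by
    intro 𝒰 h𝒰
    refine ⟨?_, ?_⟩
    · rintro k ⟨U, hU, hk⟩
      refine ((h𝒰 U hU).1 k hk).subset fun j hj => ?_
      exact fun h => hj ⟨U, hU, h⟩
    · rintro ⟨U, hU, h⟩
      refine ⟨((h𝒰 U hU).2 h).1.subset fun j hj => ?_, fun s hs =>
        (((h𝒰 U hU).2 h).2 s hs).subset fun p hp => ⟨hp.1, fun h' => hp.2 ⟨U, hU, h'⟩⟩⟩
      exact fun h => hj ⟨U, hU, h⟩

theorem isOpen_iff {U : Set Y} : IsOpen U ↔ IsOp U := Iff.rfl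

instance : T1Space Y := by
  constructor
  intro x
  rw [← isOpen_compl_iff, isOpen_iff]
  refine ⟨fun k _ => ?_, fun _ => ⟨?_, fun s _ => ?_⟩⟩
  · refine ((finite_singleton x).preimage (f := fun j => Y.pt (k, j)) ?_).subset ?_
    · intro a _ b _ h
      exact (Prod.ext_iff.mp (pt_inj h)).2
    · intro j hj
      simpa using hj
  · refine ((finite_singleton x).preimage (f := Y.col) col_inj.injOn).subset ?_
    intro j hj
    simpa using hj
  · refine ((finite_singleton x).preimage (f := Y.pt) pt_inj.injOn).subset ?_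
    rintro p ⟨-, hp⟩
    simpa using hp

/-- Every countable T1 space is semistratifiable. -/
theorem semistrat (Y : Type) [TopologicalSpace Y] [T1Space Y] [Countable Y] :
    ∃ G : Set Y → ℕ → Set Y,
      (∀ F : Set Y, IsClosed F → ∀ n, IsOpen (G F n)) ∧
      (∀ F : Set Y, IsClosed F → ⋂ n, G F n = F) ∧
      (∀ F K : Set Y, IsClosed F → IsClosed K → F ⊆ K → ∀ n, G F n ⊆ G K n) := by
  obtain ⟨e, he⟩ := Countable.exists_injective_nat Y
  refine ⟨fun F n => {y | y ∉ F ∧ e y < n}ᶜ, ?_, ?_, ?_⟩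
  · intro F _ n
    have : {y | y ∉ F ∧ e y < n}.Finite := by
      refine ((finite_Iio n).preimage he.injOn).subset ?_
      rintro y ⟨-, hy⟩
      exact hy
    exact this.isClosed.isOpen_compl
  · intro F _
    ext y
    simp only [mem_iInter, mem_compl_iff, mem_ofPred_eq, not_and, not_lt]
    constructor
    · intro h
      by_contra hy
      exact absurd (h (e y + 1) hy) (by omega)
    · intro hy n hn
      exact absurd hy hn
  · intro F K _ _ hFK n y hy
    simp only [mem_compl_iff, mem_ofPred_eq, not_and] at hy ⊢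
    exact fun h => hy (fun h' => h (hFK h'))

theorem isOpen_pt (p : ℕ × ℕ) : IsOpen ({Y.pt p} : Set Y) := by
  rw [isOpen_iff]
  exact ⟨fun k h => by simp at h, fun h => by simp at h⟩

/-- column neighbourhoods -/
theorem isOpen_colset (k : ℕ) (F : Set ℕ) (hF : F.Finite) :
    IsOpen ({y | y = Y.col k ∨ ∃ j, j ∉ F ∧ y = Y.pt (k, j)} : Set Y) := by
  rw [isOpen_iff]
  refine ⟨fun k' h => ?_, fun h => ?_⟩
  · simp only [mem_ofPred_eq, Y.col.injEq, reduceCtorEq, and_false, exists_false, or_false] at h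
    subst h
    refine hF.subset fun j hj => ?_
    by_contra hjF
    exact hj (Or.inr ⟨j, hjF, rfl⟩)
  · simp at h

theorem tendsto_col {k : ℕ} {φ : ℕ → ℕ} (hφ : StrictMono φ) :
    Tendsto (fun n => Y.pt (k, φ n)) atTop (𝓝 (Y.col k)) := by
  rw [tendsto_nhds]
  intro U hU hk
  have h1 := (isOpen_iff.mp hU).1 k hk
  have h2 : {n | Y.pt (k, φ n) ∉ U}.Finite := h1.preimage hφ.injective.injOn
  have h3 := h2.compl_mem_cofinite
  rw [Nat.cofinite_eq_atTop] at h3
  filter_upwards [h3] with n hn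
  by_contra hcon
  exact hn hcon

theorem tendsto_inf_col {φ : ℕ → ℕ} (hφ : StrictMono φ) :
    Tendsto (fun n => Y.col (φ n)) atTop (𝓝 Y.inf) := by
  rw [tendsto_nhds]
  intro U hU hk
  have h1 := ((isOpen_iff.mp hU).2 hk).1
  have h2 : {n | Y.col (φ n) ∉ U}.Finite := h1.preimage hφ.injective.injOn
  have h3 := h2.compl_mem_cofinite
  rw [Nat.cofinite_eq_atTop] at h3
  filter_upwards [h3] with n hn
  by_contra hcon
  exact hn hcon

theorem tendsto_inf_pt {s : Set (ℕ × ℕ)} (hs : s ∈ S) {φ : ℕ → ℕ × ℕ}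
    (hφ : Function.Injective φ) (hφs : ∀ n, φ n ∈ s) :
    Tendsto (fun n => Y.pt (φ n)) atTop (𝓝 Y.inf) := by
  rw [tendsto_nhds]
  intro U hU hk
  have h1 := ((isOpen_iff.mp hU).2 hk).2 s hs
  have h2 : {n | Y.pt (φ n) ∉ U}.Finite := by
    refine (h1.preimage (f := φ) hφ.injOn).subset ?_
    intro n hn
    exact ⟨hφs n, hn⟩
  have h3 := h2.compl_mem_cofinite
  rw [Nat.cofinite_eq_atTop] at h3
  filter_upwards [h3] with n hn
  by_contra hcon
  exact hn hcon

instance : FrechetUrysohnSpace Y := by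
  constructor
  intro E y hy
  by_cases hyE : y ∈ E
  · exact ⟨fun _ => y, fun _ => hyE, tendsto_const_nhds⟩
  match y with
  | Y.pt p =>
    obtain ⟨z, hz1, hz2⟩ := mem_closure_iff.mp hy _ (isOpen_pt p) rfl
    rw [mem_singleton_iff] at hz1
    exact absurd (hz1 ▸ hz2) hyE
  | Y.col k =>
    have hfr : ∃ᶠ j in atTop, Y.pt (k, j) ∈ E := by
      rw [Filter.frequently_atTop]
      intro m
      obtain ⟨z, hz1, hz2⟩ := mem_closure_iff.mp hy _ (isOpen_colset k (Iio m) (finite_Iio m))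
        (Or.inl rfl)
      rcases hz1 with rfl | ⟨j, hj, rfl⟩
      · exact absurd hz2 hyE
      · exact ⟨j, by simpa using hj, hz2⟩
    obtain ⟨φ, hφ1, hφ2⟩ := Filter.extraction_of_frequently_atTop hfr
    exact ⟨fun n => Y.pt (k, φ n), hφ2, tendsto_col hφ1⟩
  | Y.inf =>
    by_cases hcol : {k | Y.col k ∈ E}.Infinite
    · obtain ⟨φ, hφ1, hφ2⟩ := Filter.extraction_of_frequently_atTop
        (Nat.frequently_atTop_iff_infinite.mpr hcol)
      exact ⟨fun n => Y.col (φ n), hφ2, tendsto_inf_col hφ1⟩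
    rw [not_infinite] at hcol
    by_cases hs : ∃ s ∈ S, (s ∩ {p | Y.pt p ∈ E}).Infinite
    · obtain ⟨s, hs1, hs2⟩ := hs
      refine ⟨fun n => Y.pt (hs2.natEmbedding _ n), fun n => (hs2.natEmbedding _ n).2.2,
        tendsto_inf_pt hs1 (Subtype.val_injective.comp (hs2.natEmbedding _).injective)
          fun n => (hs2.natEmbedding _ n).2.1⟩
    · exfalso
      push Not at hs
      have hbig : ¬ Big {p | Y.pt p ∈ E} := by
        intro hb
        obtain ⟨⟨s, hs1, hs2⟩, -⟩ := big hb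
        have h1 := hs s hs1
        rw [inter_eq_left.mpr hs2] at h1
        exact (S_inf hs1).1 h1
      have hK : {k | {j | Y.pt (k, j) ∈ E}.Infinite}.Finite := not_infinite.mp hbig
      have hopen : IsOpen (E ∪ Y.col '' {k | {j | Y.pt (k, j) ∈ E}.Infinite})ᶜ := by
        rw [isOpen_iff]
        refine ⟨fun k hk => ?_, fun _ => ⟨?_, fun s hs' => ?_⟩⟩
        · have h1 : {j | Y.pt (k, j) ∈ E}.Finite := by
            by_contra hcon
            exact hk (Or.inr ⟨k, hcon, rfl⟩)
          refine h1.subset fun j hj => ?_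
          simp only [mem_ofPred_eq, mem_compl_iff, mem_union, mem_image, reduceCtorEq, and_false,
            exists_false, or_false, not_not] at hj
          exact hj
        · refine (hcol.union hK).subset fun k hk => ?_
          simp only [mem_ofPred_eq, mem_compl_iff, mem_union, mem_image, Y.col.injEq,
            exists_eq_right, not_not] at hk
          exact hk
        · refine (hs s hs').subset fun p hp => ⟨hp.1, ?_⟩
          have := hp.2
          simp only [mem_compl_iff, mem_union, mem_image, reduceCtorEq, and_false,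
            exists_false, or_false, not_not] at this
          exact this
      obtain ⟨z, hz1, hz2⟩ := mem_closure_iff.mp hy _ hopen (by
        rintro (h | ⟨k, -, h⟩)
        · exact hyE h
        · cases h)
      exact hz1 (Or.inl hz2)

theorem inf_mem_closure : Y.inf ∈ closure (range Y.col) :=
  mem_closure_of_tendsto (tendsto_inf_col strictMono_id) (Eventually.of_forall fun n => ⟨n, rfl⟩)

theorem col_mem_closure (k : ℕ) : Y.col k ∈ closure (range fun j => Y.pt (k, j)) :=
  mem_closure_of_tendsto (tendsto_col strictMono_id) (Eventually.of_forall fun n => ⟨n, rfl⟩)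

/-- `Y` is not a closed image of a space with a decreasing countable neighbourhood base at each
point. -/
theorem not_closed_image {X : Type} [TopologicalSpace X] (Bx : X → ℕ → Set X)
    (hB1 : ∀ x n, Bx x n ∈ 𝓝 x) (hB2 : ∀ x, ∀ N ∈ 𝓝 x, ∃ n, Bx x n ⊆ N)
    (hB3 : ∀ x, Antitone (Bx x)) (f : X → Y) (hf : Continuous f) (hc : IsClosedMap f)
    (hs : Function.Surjective f) : False := by
  have hcl : ∀ A : Set Y, closure A ⊆ f '' closure (f ⁻¹' A) := by
    intro A
    apply closure_minimal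
    · intro y hy
      obtain ⟨x, rfl⟩ := hs y
      exact ⟨x, subset_closure hy, rfl⟩
    · exact hc _ isClosed_closure
  have h1 : ∀ k, ∃ c, c ∈ closure (f ⁻¹' (range fun j => Y.pt (k, j))) ∧ f c = Y.col k :=
    fun k => hcl _ (col_mem_closure k)
  choose c hc1 hc2 using h1
  have h2 : ∃ x ∈ closure (range c), f x = Y.inf := by
    have h3 : closure (range Y.col) ⊆ f '' closure (range c) := by
      apply closure_minimal _ (hc _ isClosed_closure)
      rintro _ ⟨k, rfl⟩
      exact ⟨c k, subset_closure ⟨k, rfl⟩, hc2 k⟩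
    exact h3 inf_mem_closure
  obtain ⟨x, hx1, hx2⟩ := h2
  have h4 : ∀ n, ∃ᶠ k in atTop, c k ∈ interior (Bx x n) := by
    intro n
    rw [Filter.frequently_atTop]
    intro m
    have h5 : IsOpen (interior (Bx x n) ∩ f ⁻¹' (Y.col '' (Iio m))ᶜ) :=
      isOpen_interior.inter ((((finite_Iio m).image Y.col).isClosed.isOpen_compl).preimage hf)
    obtain ⟨z, ⟨hz1, hz2⟩, ⟨k, rfl⟩⟩ := mem_closure_iff.mp hx1 _ h5 (by
      refine ⟨mem_interior_iff_mem_nhds.mpr (hB1 x n), ?_⟩
      rw [mem_preimage, hx2]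
      rintro ⟨k, -, h⟩
      cases h)
    refine ⟨k, ?_, hz1⟩
    by_contra hcon
    push Not at hcon
    exact hz2 ⟨k, hcon, (hc2 k).symm⟩
  obtain ⟨φ, hφ, hφ2⟩ := Filter.extraction_forall_of_frequently h4
  have hT : ∀ n, {j | Y.pt (φ n, j) ∈ f '' Bx x n}.Infinite := by
    intro n
    rw [← Nat.frequently_atTop_iff_infinite, Filter.frequently_atTop]
    intro m
    have h5 : IsOpen (interior (Bx x n) ∩
        f ⁻¹' {y | y = Y.col (φ n) ∨ ∃ j, j ∉ Iio m ∧ y = Y.pt (φ n, j)}) :=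
      isOpen_interior.inter ((isOpen_colset (φ n) (Iio m) (finite_Iio m)).preimage hf)
    obtain ⟨z, ⟨hz1, hz2⟩, ⟨j, hj⟩⟩ := mem_closure_iff.mp (hc1 (φ n)) _ h5
      ⟨hφ2 n, Or.inl (hc2 _)⟩
    simp only at hj
    rw [mem_preimage, ← hj] at hz2
    rcases hz2 with h | ⟨j', hj', h⟩
    · cases h
    · have h6 : j = j' := (Prod.ext_iff.mp (pt_inj h)).2
      subst h6
      exact ⟨j, by simpa using hj', ⟨z, interior_subset hz1, hj.symm⟩⟩
  have hE : Big {p : ℕ × ℕ | ∃ n, p.1 = φ n ∧ Y.pt p ∈ f '' Bx x n} := by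
    refine (infinite_range_of_injective hφ.injective).mono ?_
    rintro _ ⟨n, rfl⟩
    refine (hT n).mono ?_
    intro j hj
    exact ⟨n, rfl, hj⟩
  obtain ⟨-, ⟨t, ht1, ht2⟩⟩ := big hE
  have hW : IsOpen (Y.pt '' t)ᶜ := by
    rw [isOpen_iff]
    refine ⟨fun k _ => ?_, fun _ => ⟨?_, fun s hs' => ?_⟩⟩
    · refine (((P_inf ht1).2 k).image Prod.snd).subset ?_
      intro j hj
      simp only [mem_ofPred_eq, mem_compl_iff, not_not] at hj
      obtain ⟨p, hp, hp2⟩ := hj
      exact ⟨p, ⟨hp, by rw [pt_inj hp2]⟩, by rw [pt_inj hp2]⟩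
    · convert finite_empty
      ext k
      simp
    · refine (orth hs' ht1).subset ?_
      rintro p ⟨hp1, hp2⟩
      simp only [mem_compl_iff, not_not] at hp2
      obtain ⟨q, hq, hq2⟩ := hp2
      rw [pt_inj hq2] at hq
      exact ⟨hp1, hq⟩
  have hW2 : f ⁻¹' (Y.pt '' t)ᶜ ∈ 𝓝 x := by
    refine (hW.preimage hf).mem_nhds ?_
    rw [mem_preimage, hx2]
    rintro ⟨p, -, h⟩
    cases h
  obtain ⟨n, hn⟩ := hB2 x _ hW2
  have hex : ∃ p ∈ t, φ n ≤ p.1 := by
    by_contra hcon
    push Not at hcon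
    refine (P_inf ht1).1 (((finite_Iio (φ n)).biUnion fun k _ => (P_inf ht1).2 k).subset ?_)
    intro p hp
    simp only [mem_iUnion]
    exact ⟨p.1, hcon p hp, hp, rfl⟩
  obtain ⟨p, hp1, hp2⟩ := hex
  obtain ⟨m, hm1, ⟨z, hz1, hz2⟩⟩ := ht2 hp1
  have hmn : n ≤ m := by
    rw [hm1] at hp2
    exact hφ.le_iff_le.mp hp2
  have := hn (hB3 x hmn hz1)
  rw [mem_preimage, hz2] at this
  exact this ⟨p, hp1, rfl⟩

end Pool.Agent.Helper695.Creede
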