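import Mathlib
import Pool.Agent.Helper695.Scale

set_option autoImplicit false

open Cardinal Order Set Filter Topology

namespace Pool.Agent.Helper695.Space

open Pool.Agent.Helper695.Scale

/-- The functions of the scale. -/
noncomputable def F : Lam → ℕ → M := exists_scale.choose

/-- The bounding function. -/
noncomputable def g : ℕ → M := exists_scale.choose_spec.choose

theorem F_lt (α : Lam) (k : ℕ) : F α k < g k := exists_scale.choose_spec.choose_spec.1 α k

theorem F_inc (α β : Lam) (h : α < β) : ∀ᶠ k in atTop, F α k < F β k :=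
  exists_scale.choose_spec.choose_spec.2.1 α β h

theorem F_cof (h : ℕ → M) (hh : ∀ k, h k < g k) : ∃ α, ∀ᶠ k in atTop, h k < F α k :=
  exists_scale.choose_spec.choose_spec.2.2.1 h hh

theorem g_bdd (k : ℕ) (s : Set M) (hs : #s ≤ max ℵ₀ #(List {x : M // ∃ i < k, x < g i}))
    (hs2 : ∀ y ∈ s, y < g k) : ∃ z < g k, ∀ y ∈ s, y < z :=
  exists_scale.choose_spec.choose_spec.2.2.2 k s hs hs2

/-- The points: finite sequences, and the members of the scale. -/
inductive X : Type
  | fin : List M → X
  | sc : Lam → X

/-- A point as a sequence, `none` playing the role of infinity. -/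
noncomputable def val : X → ℕ → Option M
  | X.fin l => fun m => l[m]?
  | X.sc α => fun m => some (F α m)

/-- The sets that we make clopen: the cones and the upper half spaces. -/
def C : List M ⊕ Lam → Set X
  | Sum.inl l => {x | ∀ m y, l[m]? = some y → val x m = some y}
  | Sum.inr β => {x | ∀ m y, val x m = some y → F β m ≤ y}

open Classical in
/-- The embedding into a power of the two point discrete space. -/
noncomputable def emb (x : X) : List M ⊕ Lam → Bool := fun i => decide (x ∈ C i)

noncomputable instance : TopologicalSpace X :=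
  TopologicalSpace.induced emb Pi.topologicalSpace

theorem isInducing_emb : IsInducing emb := ⟨rfl⟩

theorem emb_eq_iff (x y : X) (i : List M ⊕ Lam) : emb x i = emb y i ↔ (x ∈ C i ↔ y ∈ C i) := by
  simp only [emb, decide_eq_decide]

theorem mem_closure_iff_C (A : Set X) (x : X) :
    x ∈ closure A ↔ ∀ J : Finset (List M ⊕ Lam), ∃ a ∈ A, ∀ i ∈ J, (a ∈ C i ↔ x ∈ C i) := by
  rw [isInducing_emb.closure_eq_preimage_closure_image, mem_preimage, mem_closure_iff]
  constructor
  · intro h J
    obtain ⟨y, hy1, ⟨a, ha, rfl⟩⟩ := h {y | ∀ i ∈ J, y i = emb x i} (by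
      have : {y : List M ⊕ Lam → Bool | ∀ i ∈ J, y i = emb x i} =
          ⋂ i ∈ J, (fun y : List M ⊕ Lam → Bool => y i) ⁻¹' {emb x i} := by
        ext y; simp
      rw [this]
      exact isOpen_biInter_finset fun i _ => (isOpen_discrete _).preimage (continuous_apply i))
      (fun i _ => rfl)
    exact ⟨a, ha, fun i hi => (emb_eq_iff _ _ _).1 (hy1 i hi)⟩
  · intro h O hO hx
    rw [isOpen_pi_iff] at hO
    obtain ⟨J, u, h1, h2⟩ := hO _ hx
    obtain ⟨a, ha, ha2⟩ := h J
    refine ⟨emb a, h2 ?_, mem_image_of_mem _ ha⟩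
    intro i hi
    rw [(emb_eq_iff a x i).2 (ha2 i hi)]
    exact (h1 i hi).2

/-- initial segment of a member of the scale -/
noncomputable def res (α : Lam) (n : ℕ) : List M := (List.range n).map (F α)

theorem res_length (α : Lam) (n : ℕ) : (res α n).length = n := by simp [res]

theorem res_get (α : Lam) (n m : ℕ) (h : m < n) : (res α n)[m]? = some (F α m) := by
  simp [res, h]

theorem res_get' (α : Lam) (n m : ℕ) (h : n ≤ m) : (res α n)[m]? = none := by
  simp [res, h]

theorem mem_C_res {x : X} {α : Lam} {n : ℕ} (h : x ∈ C (Sum.inl (res α n))) {m : ℕ} (hm : m < n) :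
    val x m = some (F α m) := h m _ (res_get α n m hm)

theorem F_ne {α β : Lam} (h : α ≠ β) : ∃ m, F α m ≠ F β m := by
  rcases lt_or_gt_of_ne h with h | h
  · obtain ⟨m, hm⟩ := (F_inc α β h).exists
    exact ⟨m, hm.ne⟩
  · obtain ⟨m, hm⟩ := (F_inc β α h).exists
    exact ⟨m, hm.ne'⟩

theorem emb_injective : Function.Injective emb := by
  intro x y hxy
  have key : ∀ i, (x ∈ C i ↔ y ∈ C i) := fun i => (emb_eq_iff x y i).1 (congrFun hxy i)
  have hself : ∀ l : List M, X.fin l ∈ C (Sum.inl l) := fun l m y h => h
  have hres : ∀ α n, X.sc α ∈ C (Sum.inl (res α n)) := by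
    intro α n m y h
    by_cases hm : m < n
    · rw [res_get α n m hm] at h; exact h
    · rw [res_get' α n m (by omega)] at h; exact absurd h (by simp)
  have hno : ∀ l α, X.fin l ∉ C (Sum.inl (res α (l.length + 1))) := by
    intro l α h
    have := mem_C_res h (m := l.length) (by omega)
    simp [val] at this
  match x, y with
  | X.fin l, X.fin l' =>
    have h1 : X.fin l ∈ C (Sum.inl l') := (key _).2 (hself l')
    have h2 : X.fin l' ∈ C (Sum.inl l) := (key _).1 (hself l)
    have : l = l' := by
      apply List.ext_getElem?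
      intro m
      cases h3 : l[m]? with
      | some y => exact (h2 m y h3).symm
      | none =>
        cases h4 : l'[m]? with
        | none => rfl
        | some y =>
          have := h1 m y h4
          simp only [val] at this
          rw [h3] at this; exact this
    rw [this]
  | X.fin l, X.sc α => exact absurd ((key _).2 (hres α _)) (hno l α)
  | X.sc α, X.fin l => exact absurd ((key _).1 (hres α _)) (hno l α)
  | X.sc α, X.sc β =>
    by_cases h : α = β
    · rw [h]
    · obtain ⟨m, hm⟩ := F_ne h
      have := mem_C_res ((key _).1 (hres α (m + 1))) (m := m) (by omega)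
      simp only [val, Option.some.injEq] at this
      exact absurd this.symm hm

instance : CompletelyRegularSpace X := isInducing_emb.completelyRegularSpace

instance : T0Space X := by
  exact (IsEmbedding.mk isInducing_emb emb_injective).t0Space

instance : T35Space X := {}

/-- A nonseparable subspace. -/
def Z : Set X := range X.sc

theorem Z_not_dense (D : Set X) (hD : D ⊆ Z) (hcard : #D ≤ mu) : ¬ Z ⊆ closure D := by
  intro hZ
  have h1 : #(X.sc ⁻¹' D) ≤ mu :=
    (mk_preimage_of_injective _ _ (fun _ _ h => X.sc.inj h)).trans hcard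
  obtain ⟨β, hβ⟩ := bounded_Lam _ h1
  have h2 := (mem_closure_iff_C D (X.sc β)).1 (hZ ⟨β, rfl⟩) {Sum.inr β}
  obtain ⟨a, ha, ha2⟩ := h2
  obtain ⟨α, rfl⟩ := hD ha
  have h3 : X.sc α ∈ C (Sum.inr β) := by
    rw [ha2 (Sum.inr β) (by simp)]
    intro m y hy
    simp only [val, Option.some.injEq] at hy
    exact hy.le
  obtain ⟨m, hm⟩ := (F_inc α β (hβ α ha)).exists
  exact absurd (h3 m _ rfl) (not_le.mpr hm)

/-- Key lemma. -/
theorem good (W : Set Lam) (hW : ∀ β, ∃ α ∈ W, β < α) (m₀ : ℕ) :
    ∃ l : List M, m₀ ≤ l.length ∧ ∀ h : ℕ → M, (∀ k, h k < g k) →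
      ∃ α ∈ W, (∀ m y, l[m]? = some y → F α m = y) ∧ ∀ m, l.length ≤ m → h m ≤ F α m := by
  classical
  by_contra hcon
  push Not at hcon
  have : Nonempty (ℕ → M) := ⟨g⟩
  choose! H hH1 hH2 using hcon
  -- a common bound
  have hbd : ∀ k, ∃ z < g k, ∀ l : List {x : M // ∃ i < k, x < g i},
      m₀ ≤ l.length → H (l.map Subtype.val) k < z := by
    intro k
    obtain ⟨z, hz1, hz2⟩ := g_bdd k
      (range fun l : {l : List {x : M // ∃ i < k, x < g i} // m₀ ≤ l.length} =>
        H (l.1.map Subtype.val) k)
      (mk_range_le.trans ((mk_subtype_le _).trans (le_max_right _ _)))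
      (by
        rintro y ⟨l, rfl⟩
        exact hH1 _ (by simpa using l.2) k)
    exact ⟨z, hz1, fun l hl => hz2 _ ⟨⟨l, hl⟩, rfl⟩⟩
  choose z hz1 hz2 using hbd
  obtain ⟨α₀, hα₀⟩ := F_cof z hz1
  obtain ⟨α, hαW, hα⟩ := hW α₀
  obtain ⟨N, hN⟩ := eventually_atTop.mp (hα₀.and (F_inc _ _ hα))
  let n := max N m₀
  obtain ⟨m, hm1, hm2⟩ := hH2 (res α n) (by rw [res_length]; exact le_max_right _ _) α hαW (by
    intro m y h
    by_cases hm : m < n
    · rw [res_get α n m hm] at h; exact Option.some.inj h
    · rw [res_get' α n m (by omega)] at h; exact absurd h (by simp))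
  rw [res_length] at hm1
  have hNm : N ≤ m := (le_max_left _ _).trans hm1
  obtain ⟨h1, h2⟩ := hN m hNm
  have h3 : ∃ l : List {x : M // ∃ i < m, x < g i}, l.map Subtype.val = res α n := by
    refine ⟨(List.range n).attach.map (fun i => ⟨F α i.1, i.1, ?_, F_lt α i.1⟩), ?_⟩
    · have := i.2
      rw [List.mem_range] at this
      omega
    · rw [List.map_map]
      simp [res, Function.comp_def]
  obtain ⟨l, hl⟩ := h3
  have h4 : m₀ ≤ l.length := by
    have : l.length = n := by rw [← List.length_map Subtype.val, hl, res_length]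
    rw [this]; exact le_max_right _ _
  have h5 := hz2 m l h4
  rw [hl] at h5
  exact lt_irrefl _ (hm2.trans (h5.trans (h1.trans h2)))


theorem mk_List_M : #(List M) = mu := by
  have : Infinite M := by
    rw [infinite_iff, mk_M]; exact aleph0_le_mu
  rw [mk_list_eq_mk, mk_M]

/-- A basic neighbourhood of a point of the scale. -/
theorem nhd_sc (α : Lam) (J : Finset (List M ⊕ Lam)) : ∃ n, ∀ x : X,
    x ∈ C (Sum.inl (res α n)) → x ∈ C (Sum.inr α) → ∀ i ∈ J, (x ∈ C i ↔ X.sc α ∈ C i) := by
  classical
  have mono : ∀ {n n' : ℕ}, n ≤ n' → ∀ x : X, x ∈ C (Sum.inl (res α n')) →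
      x ∈ C (Sum.inl (res α n)) := by
    intro n n' hn x hx m y h
    by_cases hm : m < n
    · rw [res_get α n m hm] at h
      rw [mem_C_res hx (by omega)]; exact h
    · rw [res_get' α n m (by omega)] at h; exact absurd h (by simp)
  have one : ∀ i : List M ⊕ Lam, ∃ n, ∀ x : X,
      x ∈ C (Sum.inl (res α n)) → x ∈ C (Sum.inr α) → (x ∈ C i ↔ X.sc α ∈ C i) := by
    rintro (l | β)
    · refine ⟨l.length, fun x hx _ => ?_⟩
      constructor
      · intro h m y hy
        have hm : m < l.length := by
          by_contra hm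
          rw [List.getElem?_eq_none (by omega)] at hy
          exact absurd hy (by simp)
        rw [← h m y hy, mem_C_res hx hm]
        rfl
      · intro h m y hy
        have hm : m < l.length := by
          by_contra hm
          rw [List.getElem?_eq_none (by omega)] at hy
          exact absurd hy (by simp)
        rw [mem_C_res hx hm]
        exact h m y hy
    · by_cases hβ : X.sc α ∈ C (Sum.inr β)
      · refine ⟨0, fun x _ hx => ⟨fun _ => hβ, fun _ m y hy => ?_⟩⟩
        exact (hβ m _ rfl).trans (hx m y hy)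
      · have : ∃ m, ¬ F β m ≤ F α m := by
          by_contra hcon
          push Not at hcon
          apply hβ
          intro m y hy
          simp only [val, Option.some.injEq] at hy
          rw [← hy]; exact hcon m
        obtain ⟨m, hm⟩ := this
        refine ⟨m + 1, fun x hx _ => ⟨fun h => ?_, fun h => absurd h hβ⟩⟩
        exact absurd (h m _ (mem_C_res hx (by omega))) hm
  induction J using Finset.induction_on with
  | empty => exact ⟨0, fun x _ _ i hi => absurd hi (by simp)⟩
  | insert i J _ ih =>
    obtain ⟨n, hn⟩ := ih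
    obtain ⟨n', hn'⟩ := one i
    refine ⟨max n n', fun x hx hx2 j hj => ?_⟩
    rw [Finset.mem_insert] at hj
    rcases hj with rfl | hj
    · exact hn' x (mono (le_max_right _ _) x hx) hx2
    · exact hn x (mono (le_max_left _ _) x hx) hx2 j hj

/-- A point of the closure found by the key lemma. -/
theorem fin_mem_closure (W : Set Lam) (l : List M)
    (hl : ∀ h : ℕ → M, (∀ k, h k < g k) →
      ∃ α ∈ W, (∀ m y, l[m]? = some y → F α m = y) ∧ ∀ m, l.length ≤ m → h m ≤ F α m) :
    X.fin l ∈ closure (X.sc '' W) := by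
  classical
  rw [mem_closure_iff_C]
  intro J
  -- the bound
  have hbd : ∀ k, ∃ z < g k, (∀ β, Sum.inr β ∈ J → F β k ≤ z) ∧
      (∀ l', Sum.inl l' ∈ J → ∀ y, l'[k]? = some y → y < g k → y < z) := by
    intro k
    let s : Set M := (fun i : List M ⊕ Lam => Sum.elim
      (fun l' : List M => if h : ∃ y, l'[k]? = some y ∧ y < g k then h.choose else F (bounded_Lam ∅ (by simp)).choose k)
      (fun β : Lam => F β k) i) '' (J : Set (List M ⊕ Lam))
    have hsfin : s.Finite := J.finite_toSet.image _
    obtain ⟨z, hz1, hz2⟩ := g_bdd k s (hsfin.lt_aleph0.le.trans (le_max_left _ _)) (by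
      rintro y ⟨i, hi, rfl⟩
      rcases i with l' | β
      · simp only [Sum.elim_inl]
        split_ifs with h
        · exact h.choose_spec.2
        · exact F_lt _ _
      · exact F_lt _ _)
    refine ⟨z, hz1, fun β hβ => (hz2 _ ⟨_, hβ, rfl⟩).le, fun l' hl' y hy1 hy2 => ?_⟩
    have := hz2 _ ⟨_, hl', rfl⟩
    have hex : ∃ y, l'[k]? = some y ∧ y < g k := ⟨y, hy1, hy2⟩
    simp only [Sum.elim_inl, hex, dif_pos] at this
    have h3 := hex.choose_spec.1
    have h4 : y = hex.choose := Option.some.inj (hy1.symm.trans h3)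
    rw [h4]; exact this
  choose h h1 h2 h3 using hbd
  obtain ⟨α, hα, hα1, hα2⟩ := hl h h1
  refine ⟨X.sc α, ⟨α, hα, rfl⟩, ?_⟩
  rintro (l' | β) hi
  · constructor
    · intro hc m y hy
      have h4 := hc m y hy
      simp only [val, Option.some.injEq] at h4 ⊢
      cases h5 : l[m]? with
      | some y' =>
        have := hα1 m y' h5
        rw [← this, h4]
      | none =>
        exfalso
        rw [List.getElem?_eq_none_iff] at h5
        have h6 := h3 m l' hi y hy (by rw [← h4]; exact F_lt α m)
        have h7 := hα2 m h5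
        rw [h4] at h7
        exact absurd h6 (not_lt.mpr h7)
    · intro hc m y hy
      have h4 := hc m y hy
      simp only [val, Option.some.injEq] at h4 ⊢
      exact hα1 m y h4
  · constructor
    · intro hc m y hy
      simp only [val] at hy
      have := hc m (F α m) rfl
      rwa [hα1 m y hy] at this
    · intro hc m y hy
      simp only [val, Option.some.injEq] at hy
      rw [← hy]
      by_cases hm : m < l.length
      · have h4 : l[m]? = some l[m] := List.getElem?_eq_getElem hm
        have := hc m _ h4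
        rwa [hα1 m _ h4]
      · exact (h2 m β hi).trans (hα2 m (by omega))

theorem unbounded_of_lt (W : Set Lam) (hW : mu < #W) : ∀ β, ∃ α ∈ W, β < α := by
  intro β
  by_contra hcon
  push Not at hcon
  have : W ⊆ Iic β := fun α hα => hcon α hα
  exact absurd ((mk_le_mk_of_subset this).trans (mk_Iic_Lam β)) (not_le.mpr hW)

/-- Every closed subset has density at most `mu`. -/
theorem closed_density (Y : Set X) (hY : IsClosed Y) :
    ∃ D ⊆ Y, Y ⊆ closure D ∧ #D ≤ mu := by
  classical
  let E : Set X := Y ∩ range X.fin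
  let W : Set Lam := {α | X.sc α ∈ Y ∧ X.sc α ∉ closure E}
  refine ⟨E ∪ X.sc '' W, ?_, ?_, ?_⟩
  · rintro x (hx | ⟨α, hα, rfl⟩)
    · exact hx.1
    · exact hα.1
  · intro x hx
    by_cases hE : x ∈ closure E
    · exact closure_mono subset_union_left hE
    · rcases x with l | α
      · have hmem : X.fin l ∈ E := ⟨hx, ⟨l, rfl⟩⟩
        exact absurd (subset_closure hmem) hE
      · exact subset_closure (Or.inr ⟨α, ⟨hx, hE⟩, rfl⟩)
  · have hE : #E ≤ mu := by
      refine (mk_le_mk_of_subset (inter_subset_right : E ⊆ range X.fin)).trans ?_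
      exact mk_range_le.trans mk_List_M.le
    have hW : #W ≤ mu := by
      by_contra hcon
      push Not at hcon
      -- neighbourhoods missing `E`
      have hn : ∀ α ∈ W, ∃ n, ∀ x ∈ E, x ∈ C (Sum.inl (res α n)) → x ∉ C (Sum.inr α) := by
        intro α hα
        have h1 := hα.2
        rw [mem_closure_iff_C] at h1
        push Not at h1
        obtain ⟨J, hJ⟩ := h1
        obtain ⟨n, hn⟩ := nhd_sc α J
        refine ⟨n, fun x hx h2 h3 => ?_⟩
        obtain ⟨i, hi, hi2⟩ := hJ x hx
        have h4 := hn x h2 h3 i hi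
        tauto
      choose! n hn using hn
      -- pigeonhole
      have hp : ∃ l₀ : List M, mu < #{α : Lam | α ∈ W ∧ res α (n α) = l₀} := by
        by_contra hcon2
        push Not at hcon2
        have h1 : W ⊆ ⋃ l₀ : List M, {α : Lam | α ∈ W ∧ res α (n α) = l₀} := by
          intro α hα
          simp only [mem_iUnion]
          exact ⟨_, hα, rfl⟩
        have h2 : #W ≤ mu := by
          refine (mk_le_mk_of_subset h1).trans ((mk_iUnion_le _).trans ?_)
          calc #(List M) * ⨆ l₀ : List M, #{α : Lam | α ∈ W ∧ res α (n α) = l₀} ≤ mu * mu :=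
                mul_le_mul' mk_List_M.le (ciSup_le' hcon2)
            _ = mu := mul_eq_self aleph0_le_mu
        exact absurd h2 (not_le.mpr hcon)
      obtain ⟨l₀, hl₀⟩ := hp
      obtain ⟨l, hl1, hl2⟩ := good _ (unbounded_of_lt _ hl₀) l₀.length
      have hmem : X.fin l ∈ closure (X.sc '' {α : Lam | α ∈ W ∧ res α (n α) = l₀}) :=
        fin_mem_closure _ l hl2
      have hmemY : X.fin l ∈ Y := by
        have : closure (X.sc '' {α : Lam | α ∈ W ∧ res α (n α) = l₀}) ⊆ Y := by
          apply closure_minimal _ hY
          rintro x ⟨α, hα, rfl⟩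
          exact hα.1.1
        exact this hmem
      obtain ⟨β₀, -⟩ := bounded_Lam ∅ (by simp)
      obtain ⟨α, hα, hα1, -⟩ := hl2 (F β₀) (F_lt β₀)
      refine hn α hα.1 (X.fin l) ⟨hmemY, ⟨l, rfl⟩⟩ ?_ ?_
      · rw [hα.2]
        intro m y hy
        have hm : m < l₀.length := by
          by_contra hm
          rw [List.getElem?_eq_none (by omega)] at hy
          exact absurd hy (by simp)
        have h4 : l[m]? = some l[m] := List.getElem?_eq_getElem (by omega)
        have h5 : F α m = y := by
          have h6 := hα.2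
          rw [← h6, res_get] at hy
          · exact Option.some.inj hy
          · rw [← h6, res_length] at hm; exact hm
        simp only [val]
        rw [h4, ← hα1 m _ h4, h5]
      · intro m y hy
        simp only [val] at hy
        exact (hα1 m y hy).le
    calc #(E ∪ X.sc '' W : Set X) ≤ #E + #(X.sc '' W) := mk_union_le _ _
      _ ≤ mu + mu := add_le_add hE (mk_image_le.trans hW)
      _ = mu := add_eq_self aleph0_le_mu

end Pool.Agent.Helper695.Space
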